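import Pool.Agent.TH297.NP.Fin

/-!
# MP_dcb15c_an: non-uniqueness for the normalized `p`-Laplace equation, every `1 < p < 2`

For every `p ∈ (1, 2)` there are a bounded domain `Ω` of the plane, a continuous source `f` and a
continuous boundary datum `g` for which the Dirichlet problem `Δ_p^N u = f` in `Ω`, `u = g` on
`∂Ω`, has two distinct viscosity solutions.

Construction. In polar coordinates the two solutions are `|x|³ G(θ) - 1` and `-|x|³ G(θ + π/j)`,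
where `G > 0` is `C²` and `2π/j`-periodic and the angular operator
`N[G] = (G'' + 9G)(1 - (2-p) G'²/(9G² + G'²)) - 6(2-p) G` satisfies `N[G](θ + π/j) = -N[G](θ)`;
the common source is `f = |x| N[G](θ)` and `Ω = {|x|³ (G(θ) + G(θ + π/j)) < 1}`. The profile is
`G = exp(∫₀^θ z) (1 + ε cos jθ)`; the condition is a first-order scalar differential equation for
`z`, and the amplitude `ε` is found by shooting (`z(0) = z(π/2j) = 0`) when the integer `j` is
large compared with `1/(2-p)`. Both functions have zero gradient at the origin, where they differ.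
-/

set_option autoImplicit false

namespace Pool.Agent.Results.MP_dcb15c_an.Nonuniqueness

open Set Filter Topology
open scoped Gradient Laplacian

/-- The Euclidean plane. -/
abbrev Plane : Type := EuclideanSpace ℝ (Fin 2)

/-- `Δφ(x) + (p-2) ⟨D²φ(x) e, e⟩`. -/
noncomputable def dirOp (p : ℝ) (φ : Plane → ℝ) (x e : Plane) : ℝ :=
  (Δ φ) x + (p - 2) * fderiv ℝ (fderiv ℝ φ) x e e

/-- The normalized `p`-Laplacian `Δφ + (p-2) |∇φ|⁻² ⟨D²φ ∇φ, ∇φ⟩` (used where `∇φ ≠ 0`). -/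
noncomputable def normPLap (p : ℝ) (φ : Plane → ℝ) (x : Plane) : ℝ :=
  (Δ φ) x + (p - 2) * ((‖∇ φ x‖ ^ 2)⁻¹ * fderiv ℝ (fderiv ℝ φ) x (∇ φ x) (∇ φ x))

/-- Viscosity subsolution of `Δ_p^N u = f` in `Ω`: if `φ` is `C²` near `x ∈ Ω` and `u - φ` has a
local maximum at `x`, then `Δ_p^N φ(x) ≥ f(x)` in case `∇φ(x) ≠ 0`, and
`max_{|e|=1} (Δφ(x) + (p-2)⟨D²φ(x)e, e⟩) ≥ f(x)` in case `∇φ(x) = 0` (this maximum is the upper
semicontinuous envelope of `(ξ, X) ↦ tr X + (p-2)|ξ|⁻²⟨Xξ, ξ⟩` at `(0, D²φ(x))`). -/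
def IsSubsolution (p : ℝ) (Ω : Set Plane) (f u : Plane → ℝ) : Prop :=
  ∀ x ∈ Ω, ∀ φ : Plane → ℝ, ContDiffAt ℝ 2 φ x → IsLocalMax (fun y => u y - φ y) x →
    (∇ φ x ≠ 0 → f x ≤ normPLap p φ x) ∧
    (∇ φ x = 0 → ∃ e : Plane, ‖e‖ = 1 ∧ f x ≤ dirOp p φ x e)

/-- Viscosity supersolution of `Δ_p^N u = f` in `Ω` (with the lower semicontinuous envelope
`min_{|e|=1}` at zero gradient). -/
def IsSupersolution (p : ℝ) (Ω : Set Plane) (f u : Plane → ℝ) : Prop :=
  ∀ x ∈ Ω, ∀ φ : Plane → ℝ, ContDiffAt ℝ 2 φ x → IsLocalMin (fun y => u y - φ y) x →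
    (∇ φ x ≠ 0 → normPLap p φ x ≤ f x) ∧
    (∇ φ x = 0 → ∃ e : Plane, ‖e‖ = 1 ∧ dirOp p φ x e ≤ f x)

/-- Viscosity solution, continuous on `closure Ω`, of `Δ_p^N u = f` in `Ω`, `u = g` on `∂Ω`. -/
def IsDirichletSolution (p : ℝ) (Ω : Set Plane) (f g u : Plane → ℝ) : Prop :=
  ContinuousOn u (closure Ω) ∧ (∀ x ∈ frontier Ω, u x = g x) ∧
    IsSubsolution p Ω f u ∧ IsSupersolution p Ω f u

/-- For every `p ∈ (1, 2)` uniqueness fails for the Dirichlet problem for `Δ_p^N u = f` in some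
bounded planar domain with continuous `f` and `g`. -/
theorem result : ∀ p : ℝ, 1 < p → p < 2 →
    ∃ (Ω : Set Plane) (f g u v : Plane → ℝ),
      IsOpen Ω ∧ IsConnected Ω ∧ Bornology.IsBounded Ω ∧
      ContinuousOn f (closure Ω) ∧ ContinuousOn g (frontier Ω) ∧
      IsDirichletSolution p Ω f g u ∧ IsDirichletSolution p Ω f g v ∧
      ∃ x ∈ Ω, u x ≠ v x := by
  intro p hp1 hp2
  obtain ⟨Ω, f, g, u, v, h1, h2, h3, h4, h5, h6, h7, h8⟩ :=
    Pool.Agent.TH297.NP.nonuniqueness hp1 hp2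
  exact ⟨Ω, f, g, u, v, h1, h2, h3, h4.continuousOn, h5.continuousOn,
    ⟨h6.cont, h6.bdry, h6.sub, h6.super⟩, ⟨h7.cont, h7.bdry, h7.sub, h7.super⟩, h8⟩

end Pool.Agent.Results.MP_dcb15c_an.Nonuniqueness
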